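import Pool.Agent.H2.Mon2

open Pool.Agent.H2.Mon

namespace Pool.Agent.Results.MP_d6f7e8_al.NotCompLinear

theorem result : ∃ B : Set (Fin 6 →₀ ℕ), IsPolymatroid B ∧ ∀ (K : Type) [Field K],
    ¬ HasLinRes (comp (symb (monI K B) 2) 4) 4 ∧ ¬ CompLinear (symb (monI K B) 2) :=
  ⟨K4.B, K4.isPoly, fun _ _ => ⟨K4.not_lin, fun h => K4.not_lin (h 4)⟩⟩

end Pool.Agent.Results.MP_d6f7e8_al.NotCompLinear
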